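import Pool.Agent.R751.MB.Stm

/-!
# Project KM, C4: the weight `exp (-tr X)` on the cones of positive semidefinite matrices (core)
-/

set_option autoImplicit false

namespace Pool.Agent.N618.KM

open MeasureTheory Set Filter Topology Matrix
open scoped ENNReal InnerProductSpace ComplexOrder MatrixOrder
open Pool.Agent.R751.MB (Eu EW VW Adm LCn AP Frame S_HER)

/-- the weight -/
noncomputable def wp {𝕜 : Type} [RCLike 𝕜] {D : ℕ} {ι : Type} [Fintype ι]
    (Φ : Eu ι →ₗ[ℝ] Matrix (Fin D) (Fin D) 𝕜) : Eu ι → ℝ :=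
  {x : Eu ι | (Φ x).PosSemidef}.indicator fun x => Real.exp (-RCLike.re (Φ x).trace)

section

variable {𝕜 : Type} [RCLike 𝕜] {D : ℕ}

theorem re_trace_nonneg {M : Matrix (Fin D) (Fin D) 𝕜} (hM : M.PosSemidef) :
    0 ≤ RCLike.re M.trace := by
  have := hM.trace_nonneg
  rw [RCLike.nonneg_iff] at this
  exact this.1

theorem hs_le_trace {M : Matrix (Fin D) (Fin D) 𝕜} (hM : M.PosSemidef) :
    ∑ i, ∑ j, ‖M i j‖ ^ 2 ≤ (RCLike.re M.trace) ^ 2 := by
  obtain ⟨B, rfl⟩ := CStarAlgebra.nonneg_iff_eq_star_mul_self.mp hM.nonneg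
  set c : Fin D → ℝ := fun i => ∑ k, ‖B k i‖ ^ 2 with hc
  have h1 : ∀ i j, ‖(star B * B) i j‖ ^ 2 ≤ c i * c j := by
    intro i j
    have h2 : ‖(star B * B) i j‖ ≤ ∑ k, ‖B k i‖ * ‖B k j‖ := by
      rw [Matrix.mul_apply]
      refine (norm_sum_le _ _).trans (le_of_eq (Finset.sum_congr rfl fun k _ => ?_))
      rw [norm_mul, Matrix.star_apply, norm_star]
    calc ‖(star B * B) i j‖ ^ 2 ≤ (∑ k, ‖B k i‖ * ‖B k j‖) ^ 2 :=
          pow_le_pow_left₀ (norm_nonneg _) h2 2
      _ ≤ c i * c j := Finset.sum_mul_sq_le_sq_mul_sq _ _ _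
  have h3 : RCLike.re (star B * B).trace = ∑ i, c i := by
    rw [Matrix.trace, map_sum]
    refine Finset.sum_congr rfl fun i _ => ?_
    rw [Matrix.diag_apply, Matrix.mul_apply, map_sum, hc]
    refine Finset.sum_congr rfl fun k _ => ?_
    rw [Matrix.star_apply, RCLike.star_def, RCLike.conj_mul, ← RCLike.ofReal_pow, RCLike.ofReal_re]
  rw [h3, sq, Finset.sum_mul_sum]
  exact Finset.sum_le_sum fun i _ => Finset.sum_le_sum fun j _ => h1 i j

theorem psd_of_small {E : Matrix (Fin D) (Fin D) 𝕜} (hE : E.IsHermitian)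
    (h : ∑ i, ∑ j, ‖E i j‖ ^ 2 ≤ 1) : (1 + E).PosSemidef := by
  have hH : (1 + E).IsHermitian := Matrix.isHermitian_one.add hE
  refine Matrix.PosSemidef.of_dotProduct_mulVec_nonneg hH fun v => ?_
  rw [RCLike.nonneg_iff]
  refine ⟨?_, hH.im_star_dotProduct_mulVec_self v⟩
  set S : ℝ := ∑ i, ‖v i‖ ^ 2 with hS
  have hS0 : 0 ≤ S := Finset.sum_nonneg fun i _ => by positivity
  rw [Matrix.add_mulVec, Matrix.one_mulVec, dotProduct_add, map_add]
  have h1 : RCLike.re (star v ⬝ᵥ v) = S := by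
    rw [dotProduct, map_sum]
    refine Finset.sum_congr rfl fun i _ => ?_
    rw [Pi.star_apply, RCLike.star_def, RCLike.conj_mul, ← RCLike.ofReal_pow, RCLike.ofReal_re]
  have h2 : ‖star v ⬝ᵥ (E *ᵥ v)‖ ≤ ∑ i, ∑ j, ‖E i j‖ * (‖v i‖ * ‖v j‖) := by
    rw [dotProduct]
    refine (norm_sum_le _ _).trans (Finset.sum_le_sum fun i _ => ?_)
    rw [norm_mul, Pi.star_apply, norm_star, Matrix.mulVec, dotProduct]
    refine (mul_le_mul_of_nonneg_left (norm_sum_le _ _) (norm_nonneg _)).trans (le_of_eq ?_)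
    rw [Finset.mul_sum]
    refine Finset.sum_congr rfl fun j _ => ?_
    rw [norm_mul]
    ring
  have h3 : (∑ i, ∑ j, ‖E i j‖ * (‖v i‖ * ‖v j‖)) ^ 2 ≤ S ^ 2 := by
    have h4 := Finset.sum_mul_sq_le_sq_mul_sq (Finset.univ : Finset (Fin D × Fin D))
      (fun p => ‖E p.1 p.2‖) (fun p => ‖v p.1‖ * ‖v p.2‖)
    rw [Fintype.sum_prod_type, Fintype.sum_prod_type, Fintype.sum_prod_type] at h4
    have h5 : ∑ i, ∑ j, (‖v i‖ * ‖v j‖) ^ 2 = S ^ 2 := by
      rw [hS, sq, Finset.sum_mul_sum]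
      refine Finset.sum_congr rfl fun i _ => Finset.sum_congr rfl fun j _ => ?_
      ring
    simp only [] at h4
    rw [h5] at h4
    refine h4.trans ?_
    calc (∑ i, ∑ j, ‖E i j‖ ^ 2) * S ^ 2 ≤ 1 * S ^ 2 :=
          mul_le_mul_of_nonneg_right h (by positivity)
      _ = S ^ 2 := one_mul _
  have h6 : ‖star v ⬝ᵥ (E *ᵥ v)‖ ≤ S := h2.trans (abs_le_of_sq_le_sq' h3 hS0).2
  have h7 := RCLike.abs_re_le_norm (star v ⬝ᵥ (E *ᵥ v))
  have h8 := neg_abs_le (RCLike.re (star v ⬝ᵥ (E *ᵥ v)))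
  rw [h1]
  linarith

end

theorem bd (N : ℕ) {s : ℝ} (hs : 0 ≤ s) :
    (1 + s ^ 2) * Real.exp (-s) ≤ ((N + 2).factorial * Real.exp 1) * (1 + s) ^ (-(N : ℝ)) := by
  have h1 := Real.pow_div_factorial_le_exp (x := 1 + s) (by linarith) (N + 2)
  have hf : (0 : ℝ) < ((N + 2).factorial : ℝ) := by positivity
  rw [div_le_iff₀ hf, Real.exp_add] at h1
  have h2 : 1 + s ^ 2 ≤ (1 + s) ^ 2 := by nlinarith
  have hp : 0 < (1 + s) ^ N := by positivity
  rw [Real.rpow_neg (by linarith), Real.rpow_natCast]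
  have h3 : (1 + s ^ 2) * Real.exp (-s) * (1 + s) ^ N ≤ (N + 2).factorial * Real.exp 1 := by
    calc (1 + s ^ 2) * Real.exp (-s) * (1 + s) ^ N
        ≤ (1 + s) ^ 2 * Real.exp (-s) * (1 + s) ^ N := by gcongr
      _ = (1 + s) ^ (N + 2) * Real.exp (-s) := by ring
      _ ≤ (Real.exp 1 * Real.exp s * (N + 2).factorial) * Real.exp (-s) := by gcongr
      _ = (N + 2).factorial * Real.exp 1 * (Real.exp s * Real.exp (-s)) := by ring
      _ = (N + 2).factorial * Real.exp 1 := by rw [← Real.exp_add, add_neg_cancel, Real.exp_zero,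
          mul_one]
  rwa [← div_eq_mul_inv, le_div_iff₀ hp]

section

variable {𝕜 : Type} [RCLike 𝕜] {D : ℕ} {ι : Type} [Fintype ι]
  {Φ : Eu ι →ₗ[ℝ] Matrix (Fin D) (Fin D) 𝕜}

theorem norm_le_trace (hΦ : Frame Φ) {x : Eu ι} (hx : (Φ x).PosSemidef) :
    ‖x‖ ≤ RCLike.re (Φ x).trace := by
  have h1 := hs_le_trace hx
  rw [hΦ.iso] at h1
  exact (abs_le_of_sq_le_sq' h1 (re_trace_nonneg hx)).2

theorem closed_psd (hΦ : Frame Φ) : IsClosed {x : Eu ι | (Φ x).PosSemidef} := by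
  have hc : Continuous Φ := LinearMap.continuous_of_finiteDimensional Φ
  have h1 : {x : Eu ι | (Φ x).PosSemidef} =
      ⋂ v : Fin D → 𝕜, {x : Eu ι | 0 ≤ RCLike.re (star v ⬝ᵥ (Φ x *ᵥ v))} := by
    ext x
    simp only [Set.mem_iInter, Set.mem_ofPred_eq]
    rw [Matrix.posSemidef_iff_dotProduct_mulVec]
    constructor
    · intro h v
      exact (RCLike.nonneg_iff.1 (h.2 v)).1
    · intro h
      refine ⟨hΦ.herm x, fun v => ?_⟩
      rw [RCLike.nonneg_iff]
      exact ⟨h v, (show (Φ x).IsHermitian from hΦ.herm x).im_star_dotProduct_mulVec_self v⟩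
  rw [h1]
  refine isClosed_iInter fun v => ?_
  refine isClosed_le continuous_const ?_
  refine RCLike.continuous_re.comp ?_
  exact Continuous.dotProduct continuous_const (hc.matrix_mulVec continuous_const)

theorem wp_of {x : Eu ι} (hx : (Φ x).PosSemidef) :
    wp Φ x = Real.exp (-RCLike.re (Φ x).trace) := by
  have h : x ∈ {x : Eu ι | (Φ x).PosSemidef} := hx
  unfold wp
  rw [Set.indicator_of_mem h]

theorem wp_not {x : Eu ι} (hx : ¬ (Φ x).PosSemidef) : wp Φ x = 0 := by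
  have h : x ∉ {x : Eu ι | (Φ x).PosSemidef} := hx
  unfold wp
  rw [Set.indicator_of_notMem h]

theorem wp_nonneg (x : Eu ι) : 0 ≤ wp Φ x :=
  Set.indicator_nonneg (fun _ _ => (Real.exp_pos _).le) x

theorem wp_le (hΦ : Frame Φ) (x : Eu ι) : wp Φ x ≤ Real.exp (-‖x‖) := by
  by_cases hx : (Φ x).PosSemidef
  · have : wp Φ x = Real.exp (-RCLike.re (Φ x).trace) := wp_of hx
    rw [this]
    exact Real.exp_le_exp.2 (neg_le_neg (norm_le_trace hΦ hx))
  · have : wp Φ x = 0 := wp_not hx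
    rw [this]
    exact (Real.exp_pos _).le

theorem wp_meas (hΦ : Frame Φ) : Measurable (wp Φ) := by
  have hc : Continuous Φ := LinearMap.continuous_of_finiteDimensional Φ
  refine Measurable.indicator ?_ (closed_psd hΦ).measurableSet
  have h1 : Continuous fun x => (Φ x).trace := hc.matrix_trace
  have h2 : Continuous fun x => Real.exp (-RCLike.re (Φ x).trace) :=
    Real.continuous_exp.comp (RCLike.continuous_re.comp h1).neg
  exact h2.measurable

theorem wp_adm (hΦ : Frame Φ) : Adm (wp Φ) := by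
  have hint : Integrable fun x : Eu ι => (1 + ‖x‖ ^ 2) * wp Φ x := by
    set N := Module.finrank ℝ (Eu ι) + 1 with hN
    have h1 : Integrable (fun x : Eu ι => (1 + ‖x‖) ^ (-(N : ℝ))) :=
      integrable_one_add_norm (by rw [hN]; push_cast; linarith)
    refine (h1.const_mul ((N + 2).factorial * Real.exp 1)).mono' ?_ ?_
    · refine Measurable.aestronglyMeasurable ?_
      exact Measurable.mul (by fun_prop) (wp_meas hΦ)
    · refine Filter.Eventually.of_forall fun x => ?_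
      rw [Real.norm_of_nonneg (mul_nonneg (by positivity) (wp_nonneg x))]
      exact (mul_le_mul_of_nonneg_left (wp_le hΦ x) (by positivity)).trans (bd N (norm_nonneg x))
  have hint0 : Integrable (wp Φ) := by
    refine hint.mono' (wp_meas hΦ).aestronglyMeasurable (Filter.Eventually.of_forall fun x => ?_)
    rw [Real.norm_of_nonneg (wp_nonneg x)]
    have h2 := wp_nonneg (Φ := Φ) x
    nlinarith [mul_nonneg (sq_nonneg ‖x‖) h2]
  refine ⟨wp_nonneg, hint, ?_, wp_meas hΦ⟩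
  rw [integral_pos_iff_support_of_nonneg wp_nonneg hint0]
  obtain ⟨x₀, hx₀⟩ := hΦ.surj 1 Matrix.conjTranspose_one
  have hsub : Metric.ball x₀ 1 ⊆ Function.support (wp Φ) := by
    intro x hx
    rw [Metric.mem_ball, dist_eq_norm] at hx
    have h1 : (Φ x).PosSemidef := by
      have h2 : Φ x = 1 + Φ (x - x₀) := by
        rw [map_sub, hx₀]
        abel
      rw [h2]
      refine psd_of_small (hΦ.herm _) ?_
      rw [hΦ.iso]
      have h3 := norm_nonneg (x - x₀)
      nlinarith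
    have h4 : wp Φ x = Real.exp (-RCLike.re (Φ x).trace) := wp_of h1
    rw [Function.mem_support, h4]
    exact (Real.exp_pos _).ne'
  exact (Metric.measure_ball_pos volume x₀ one_pos).trans_le (measure_mono hsub)

theorem wp_lcn : LCn (wp Φ) := by
  intro x y t ht ht1
  by_cases hx : (Φ x).PosSemidef
  · by_cases hy : (Φ y).PosSemidef
    · have h1 : wp Φ x = Real.exp (-RCLike.re (Φ x).trace) := wp_of hx
      have h2 : wp Φ y = Real.exp (-RCLike.re (Φ y).trace) := wp_of hy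
      have hxy : (Φ ((1 - t) • x + t • y)).PosSemidef := by
        rw [map_add, map_smul, map_smul]
        exact (hx.smul (by linarith : (0 : ℝ) ≤ 1 - t)).add (hy.smul ht.le)
      have h3 : wp Φ ((1 - t) • x + t • y) =
          Real.exp (-RCLike.re (Φ ((1 - t) • x + t • y)).trace) := wp_of hxy
      rw [h1, h2, h3, ← Real.exp_mul, ← Real.exp_mul, ← Real.exp_add]
      refine le_of_eq (congrArg Real.exp ?_)
      rw [map_add, map_smul, map_smul, Matrix.trace_add, Matrix.trace_smul, Matrix.trace_smul,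
        map_add, RCLike.smul_re, RCLike.smul_re]
      ring
    · have h2 : wp Φ y = 0 := wp_not hy
      rw [h2, Real.zero_rpow ht.ne', mul_zero]
      exact wp_nonneg _
  · have h2 : wp Φ x = 0 := wp_not hx
    rw [h2, Real.zero_rpow (by linarith), zero_mul]
    exact wp_nonneg _

theorem wp_inv (U : Matrix (Fin D) (Fin D) 𝕜) (hU : U ∈ Matrix.unitaryGroup (Fin D) 𝕜)
    (x y : Eu ι) (hxy : Φ y = U * Φ x * U.conjTranspose) : wp Φ y = wp Φ x := by
  have hUU : U.conjTranspose * U = 1 := Matrix.mem_unitaryGroup_iff'.1 hU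
  have hx : Φ x = U.conjTranspose * Φ y * U := by
    rw [hxy]
    calc Φ x = (U.conjTranspose * U) * Φ x * (U.conjTranspose * U) := by rw [hUU, one_mul, mul_one]
      _ = _ := by simp only [mul_assoc]
  have htr : (Φ y).trace = (Φ x).trace := by
    rw [hxy, Matrix.trace_mul_cycle, hUU, one_mul]
  by_cases h : (Φ x).PosSemidef
  · have h' : (Φ y).PosSemidef := by
      rw [hxy]
      exact h.mul_mul_conjTranspose_same U
    have h1 : wp Φ x = Real.exp (-RCLike.re (Φ x).trace) := wp_of h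
    have h2 : wp Φ y = Real.exp (-RCLike.re (Φ y).trace) := wp_of h'
    rw [h1, h2, htr]
  · have h' : ¬ (Φ y).PosSemidef := by
      intro h'
      apply h
      rw [hx]
      exact h'.conjTranspose_mul_mul_same U
    have h1 : wp Φ x = 0 := wp_not h
    have h2 : wp Φ y = 0 := wp_not h'
    rw [h1, h2]

end

theorem psdb_core (h : S_HER) : ∃ A : ℝ, 0 < A ∧ ∀ (𝕜 : Type) [RCLike 𝕜] (D : ℕ), 3 ≤ D →
    ∀ (ι : Type) [Fintype ι] (Φ : Eu ι →ₗ[ℝ] Matrix (Fin D) (Fin D) 𝕜), Frame Φ →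
    AP A ({x : Eu ι | (Φ x).PosSemidef}.indicator fun x => Real.exp (-RCLike.re (Φ x).trace)) := by
  obtain ⟨A, hA, H⟩ := h
  refine ⟨A, hA, fun 𝕜 _ D hD ι _ Φ hΦ => ?_⟩
  exact H 𝕜 D hD ι Φ hΦ (wp Φ) (wp_adm hΦ) wp_lcn wp_inv

end Pool.Agent.N618.KM

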