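import Pool.Agent.N483.KM.StmS
import Pool.Agent.R751.MB.All
import Pool.Agent.N618.KM.PsdbCore

/-!
# Project KM, C4: the weight `exp (-tr X)` on the cones of positive semidefinite matrices
-/

set_option autoImplicit false

namespace Pool.Agent.N618.KM

theorem t_PSDB : Pool.Agent.N483.KM.S_PSDB := psdb_core Pool.Agent.R751.MB.pHER

end Pool.Agent.N618.KM
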